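import Mathlib
import Pool.Agent.W780.PG.Defs

set_option autoImplicit false

/-!
# Circumscribed polygons with given exterior angles
-/

namespace Pool.Agent.X115.HI

open Complex Set
open Pool.Agent.W780.PG (IsConvexPolygon region ang lft)
open scoped Real ComplexConjugate

/-- the half angle identity -/
theorem half_id {t : ℝ} (ht : Real.cos (t / 2) ≠ 0) :
    cexp (t * I) * (1 - Real.tan (t / 2) * I) = 1 + Real.tan (t / 2) * I := by
  have h1 : cexp (t * I) = cexp ((t / 2 : ℝ) * I) * cexp ((t / 2 : ℝ) * I) := by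
    rw [← Complex.exp_add]
    congr 1
    push_cast
    ring
  have h2 : cexp ((t / 2 : ℝ) * I) = Real.cos (t / 2) + Real.sin (t / 2) * I := by
    rw [Complex.exp_mul_I, ← Complex.ofReal_cos, ← Complex.ofReal_sin]
  have h3 : (Real.tan (t / 2) : ℂ) = Real.sin (t / 2) / Real.cos (t / 2) := by
    rw [Real.tan_eq_sin_div_cos]
    push_cast
    rfl
  have hc : ((Real.cos (t / 2) : ℝ) : ℂ) ≠ 0 := by exact_mod_cast ht
  have hsq : ((Real.sin (t / 2) : ℝ) : ℂ) ^ 2 + ((Real.cos (t / 2) : ℝ) : ℂ) ^ 2 = 1 := by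
    exact_mod_cast Real.sin_sq_add_cos_sq (t / 2)
  rw [h1, h2, h3]
  set s : ℂ := ((Real.sin (t / 2) : ℝ) : ℂ)
  set c : ℂ := ((Real.cos (t / 2) : ℝ) : ℂ)
  have e1 : (c + s * I) * (c + s * I) * (1 - s / c * I) =
      (c + s * I) * ((c + s * I) * (c - s * I)) / c := by
    field_simp
  have e2 : (c + s * I) * (c - s * I) = 1 := by
    have : (c + s * I) * (c - s * I) = c ^ 2 - s ^ 2 * I ^ 2 := by ring
    rw [this, I_sq]
    linear_combination hsq
  rw [e1, e2]
  field_simp

section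

variable {n : ℕ} (β γ : ℝ)

/-- the exterior angles -/
noncomputable def th (β γ : ℝ) {n : ℕ} (j : Fin (n + 3)) : ℝ := if j = Fin.last (n + 2) then γ else β

/-- the unit normals -/
noncomputable def En (β : ℝ) {n : ℕ} (j : Fin (n + 3)) : ℂ := cexp (((j : ℕ) * β : ℝ) * I)

/-- the vertices -/
noncomputable def vx (β γ : ℝ) {n : ℕ} (j : Fin (n + 3)) : ℂ :=
  En β j * (1 + Real.tan (th β γ j / 2) * I)

theorem En_succ (hs : ((n : ℝ) + 2) * β + γ = 2 * π) (j : Fin (n + 3)) :
    En β (j + 1) = En β j * cexp (th β γ j * I) := by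
  unfold En th
  rw [← Complex.exp_add]
  by_cases h : j = Fin.last (n + 2)
  · subst h
    rw [if_pos rfl]
    have h0 : (Fin.last (n + 2) + 1 : Fin (n + 3)) = 0 := Fin.last_add_one (n + 2)
    rw [h0]
    have e : ((((Fin.last (n + 2) : Fin (n + 3)) : ℕ) * β : ℝ) : ℂ) * I + (γ : ℂ) * I =
        2 * π * I := by
      have : ((Fin.last (n + 2) : Fin (n + 3)) : ℕ) = n + 2 := rfl
      rw [this]
      rw [← add_mul]
      congr 1
      have h1 : (((n + 2 : ℕ) : ℝ) * β + γ : ℝ) = 2 * π := by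
        push_cast
        linarith
      exact_mod_cast h1
    rw [e, Complex.exp_two_pi_mul_I]
    simp
  · rw [if_neg h]
    have hlt : (j : ℕ) < n + 2 := by
      have h1 := j.is_lt
      have h2 : (j : ℕ) ≠ n + 2 := fun h3 => h (Fin.ext h3)
      omega
    have h1 : ((j + 1 : Fin (n + 3)) : ℕ) = j + 1 := by
      rw [Fin.val_add_one]
      rw [if_neg h]
    rw [h1]
    congr 1
    push_cast
    ring

theorem vx_eq (hs : ((n : ℝ) + 2) * β + γ = 2 * π) (hc : ∀ j : Fin (n + 3), Real.cos (th β γ j / 2) ≠ 0)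
    (j : Fin (n + 3)) : vx β γ j = En β (j + 1) * (1 - Real.tan (th β γ j / 2) * I) := by
  rw [En_succ β γ hs, mul_assoc, half_id (hc j)]
  rfl

theorem edge (hs : ((n : ℝ) + 2) * β + γ = 2 * π) (hc : ∀ j : Fin (n + 3), Real.cos (th β γ j / 2) ≠ 0)
    (j : Fin (n + 3)) : vx β γ (j + 1) - vx β γ j =
      En β (j + 1) * I * ((Real.tan (th β γ j / 2) + Real.tan (th β γ (j + 1) / 2) : ℝ) : ℂ) := by
  rw [vx_eq β γ hs hc j]
  unfold vx
  push_cast
  ring

theorem norm_En (j : Fin (n + 3)) : ‖En β j‖ = 1 := by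
  unfold En
  exact Complex.norm_exp_ofReal_mul_I _

theorem lft_eq (hs : ((n : ℝ) + 2) * β + γ = 2 * π) (hc : ∀ j : Fin (n + 3), Real.cos (th β γ j / 2) ≠ 0)
    (j : Fin (n + 3)) (z : ℂ) : lft (vx β γ j) (vx β γ (j + 1)) z =
      (Real.tan (th β γ j / 2) + Real.tan (th β γ (j + 1) / 2)) * (1 - (conj (En β (j + 1)) * z).re) := by
  have hn : conj (En β (j + 1)) * En β (j + 1) = 1 := by
    rw [mul_comm, Complex.mul_conj, Complex.normSq_eq_norm_sq, norm_En]
    simp
  unfold lft
  rw [edge β γ hs hc, vx_eq β γ hs hc j]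
  set s := Real.tan (th β γ j / 2) + Real.tan (th β γ (j + 1) / 2)
  set e := En β (j + 1)
  set t := Real.tan (th β γ j / 2)
  have h1 : conj (e * I * (s : ℂ)) * (z - e * (1 - (t : ℂ) * I)) =
      (s : ℂ) * (-(I * (conj e * z)) + I * (1 - (t : ℂ) * I)) := by
    rw [map_mul, map_mul, conj_I, conj_ofReal]
    linear_combination ((s : ℂ) * I * (1 - (t : ℂ) * I)) * hn
  rw [h1, Complex.im_ofReal_mul]
  congr 1
  simp [Complex.add_im, Complex.neg_im, Complex.mul_im]
  ring

/-- a uniform form of the position of the vertices -/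
theorem conj_vx (φ : ℝ) (j : Fin (n + 3)) (hc : Real.cos (th β γ j / 2) ≠ 0) :
    (conj (cexp (φ * I)) * vx β γ j).re =
      Real.cos (((j : ℕ) : ℝ) * β + th β γ j / 2 - φ) / Real.cos (th β γ j / 2) := by
  have hc' : ((Real.cos (th β γ j / 2) : ℝ) : ℂ) ≠ 0 := by exact_mod_cast hc
  have h0 : (1 + Real.tan (th β γ j / 2) * I : ℂ) =
      cexp ((th β γ j / 2 : ℝ) * I) / Real.cos (th β γ j / 2) := by
    rw [Complex.exp_mul_I, ← Complex.ofReal_cos, ← Complex.ofReal_sin, Real.tan_eq_sin_div_cos,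
      Complex.ofReal_div]
    field_simp
  have h1 : conj (cexp (φ * I)) * vx β γ j =
      cexp ((((j : ℕ) : ℝ) * β + th β γ j / 2 - φ : ℝ) * I) /
        ((Real.cos (th β γ j / 2) : ℝ) : ℂ) := by
    unfold vx En
    rw [h0, ← Complex.exp_conj, map_mul, conj_I, conj_ofReal, mul_div_assoc', mul_div_assoc',
      ← Complex.exp_add, ← Complex.exp_add]
    congr 2
    push_cast
    ring
  rw [h1, Complex.div_ofReal_re, Complex.exp_ofReal_mul_I_re]

end

theorem ang_vx {n : ℕ} (β γ : ℝ) (hs : ((n : ℝ) + 2) * β + γ = 2 * π)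
    (hth0 : ∀ j : Fin (n + 3), 0 < th β γ j) (hth1 : ∀ j : Fin (n + 3), th β γ j < π)
    (j : Fin (n + 3)) : ang (vx β γ) j = π - th β γ j := by
  have hcp : ∀ j : Fin (n + 3), 0 < Real.cos (th β γ j / 2) := fun j =>
    Real.cos_pos_of_mem_Ioo ⟨by linarith [hth0 j, Real.pi_pos], by linarith [hth1 j]⟩
  have hc : ∀ j : Fin (n + 3), Real.cos (th β γ j / 2) ≠ 0 := fun j => (hcp j).ne'
  have ht : ∀ j : Fin (n + 3), 0 < Real.tan (th β γ j / 2) := fun j =>
    Real.tan_pos_of_pos_of_lt_pi_div_two (by linarith [hth0 j]) (by linarith [hth1 j])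
  have e1 := edge β γ hs hc (j - 1)
  rw [sub_add_cancel] at e1
  have e2 := edge β γ hs hc j
  set s' : ℝ := Real.tan (th β γ (j - 1) / 2) + Real.tan (th β γ j / 2) with hs'
  set s : ℝ := Real.tan (th β γ j / 2) + Real.tan (th β γ (j + 1) / 2) with hss
  have p1 : 0 < s' := add_pos (ht _) (ht _)
  have p2 : 0 < s := add_pos (ht _) (ht _)
  have hE0 : En β j ≠ 0 := by
    unfold En
    exact Complex.exp_ne_zero _
  have x1 : vx β γ (j - 1) - vx β γ j = -(En β j * I * (s' : ℂ)) := by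
    rw [← e1]
    ring
  have x2 : vx β γ (j + 1) - vx β γ j = En β j * cexp (th β γ j * I) * I * (s : ℂ) := by
    rw [e2, En_succ β γ hs]
  have hs'0 : (s' : ℂ) ≠ 0 := by exact_mod_cast p1.ne'
  have hs0 : (s : ℂ) ≠ 0 := by exact_mod_cast p2.ne'
  have hx : vx β γ (j - 1) - vx β γ j ≠ 0 := by
    rw [x1]
    exact neg_ne_zero.2 (mul_ne_zero (mul_ne_zero hE0 I_ne_zero) hs'0)
  have hy : vx β γ (j + 1) - vx β γ j ≠ 0 := by
    rw [x2]
    exact mul_ne_zero (mul_ne_zero (mul_ne_zero hE0 (Complex.exp_ne_zero _)) I_ne_zero) hs0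
  have hq : (vx β γ (j - 1) - vx β γ j) / (vx β γ (j + 1) - vx β γ j) =
      ((s' / s : ℝ) : ℂ) * (Complex.cos ((π - th β γ j : ℝ) : ℂ) +
        Complex.sin ((π - th β γ j : ℝ) : ℂ) * I) := by
    rw [← Complex.exp_mul_I, x1, x2]
    have h3 : cexp (((π - th β γ j : ℝ) : ℂ) * I) = -(cexp (th β γ j * I))⁻¹ := by
      rw [← Complex.exp_neg]
      have : (((π - th β γ j : ℝ) : ℂ) * I) = π * I + -(th β γ j * I) := by
        push_cast
        ring
      rw [this, Complex.exp_add, Complex.exp_pi_mul_I]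
      ring
    rw [h3]
    have he := Complex.exp_ne_zero (th β γ j * I)
    push_cast
    field_simp
  unfold ang EuclideanGeometry.angle
  rw [vsub_eq_sub, vsub_eq_sub, Complex.angle_eq_abs_arg hx hy, hq,
    Complex.arg_mul_cos_add_sin_mul_I (div_pos p1 p2)
      ⟨by linarith [hth0 j, hth1 j, Real.pi_pos], by linarith [hth0 j]⟩, abs_of_pos]
  linarith [hth1 j]

theorem cos_lt {h x : ℝ} (h0 : 0 < h) (h1 : h < x) (h2 : x + h < 2 * π) : Real.cos x < Real.cos h := by
  have e := Real.cos_sub_cos h x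
  have s1 : 0 < Real.sin ((h + x) / 2) := Real.sin_pos_of_pos_of_lt_pi (by linarith) (by linarith)
  have s2 : 0 < Real.sin ((x - h) / 2) :=
    Real.sin_pos_of_pos_of_lt_pi (by linarith) (by linarith)
  have s3 : Real.sin ((h - x) / 2) = -Real.sin ((x - h) / 2) := by
    rw [← Real.sin_neg]
    congr 1
    ring
  rw [s3] at e
  nlinarith [mul_pos s1 s2]

/-- circumscribed polygons with prescribed exterior angles, all equal but one -/
theorem ex (n : ℕ) (β γ : ℝ) (h0 : 0 < γ) (h1 : γ ≤ β) (h2 : β < π)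
    (hs : ((n : ℝ) + 2) * β + γ = 2 * π) :
    ∃ p : Fin (n + 3) → ℂ, IsConvexPolygon p ∧
      (∀ i, lft (p i) (p (i + 1)) 0 = ‖p (i + 1) - p i‖) ∧
      (∀ j, j ≠ Fin.last (n + 2) → ang p j = π - β) ∧ ang p (Fin.last (n + 2)) = π - γ := by
  have hβ : 0 < β := h0.trans_le h1
  have hth0 : ∀ j : Fin (n + 3), 0 < th β γ j := by
    intro j
    unfold th
    split_ifs <;> assumption
  have hth1 : ∀ j : Fin (n + 3), th β γ j ≤ β := by
    intro j
    unfold th
    split_ifs
    · exact h1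
    · exact le_rfl
  have hcp : ∀ j : Fin (n + 3), 0 < Real.cos (th β γ j / 2) := fun j =>
    Real.cos_pos_of_mem_Ioo ⟨by linarith [hth0 j, Real.pi_pos], by linarith [hth1 j]⟩
  have hc : ∀ j : Fin (n + 3), Real.cos (th β γ j / 2) ≠ 0 := fun j => (hcp j).ne'
  have ht : ∀ j : Fin (n + 3), 0 < Real.tan (th β γ j / 2) := fun j =>
    Real.tan_pos_of_pos_of_lt_pi_div_two (by linarith [hth0 j]) (by linarith [hth1 j])
  have hEs : ∀ i : Fin (n + 3), En β (i + 1) = cexp ((((i : ℕ) : ℝ) * β + th β γ i : ℝ) * I) := by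
    intro i
    rw [En_succ β γ hs]
    unfold En
    rw [← Complex.exp_add]
    congr 1
    push_cast
    ring
  refine ⟨vx β γ, ⟨fun i j hij hij1 => ?_⟩, fun i => ?_, fun j hj => ?_, ?_⟩
  · rw [lft_eq β γ hs hc, hEs, conj_vx β γ _ j (hc j)]
    refine mul_pos (add_pos (ht _) (ht _)) ?_
    rw [sub_pos, div_lt_one (hcp j)]
    have hj := j.is_lt
    have hi := i.is_lt
    rcases lt_or_gt_of_ne (fun h : (j : ℕ) = i => hij (Fin.ext h)) with hlt | hgt
    · -- `j < i`
      have hjl : j ≠ Fin.last (n + 2) := by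
        intro h
        rw [h] at hlt
        have : ((Fin.last (n + 2) : Fin (n + 3)) : ℕ) = n + 2 := rfl
        omega
      have hθj : th β γ j = β := if_neg hjl
      rw [hθj, ← Real.cos_neg]
      have hk : ((j : ℕ) : ℝ) + 1 ≤ ((i : ℕ) : ℝ) := by exact_mod_cast hlt
      apply cos_lt
      · linarith
      · nlinarith [hth0 i, mul_le_mul_of_nonneg_right hk hβ.le]
      · by_cases hil : i = Fin.last (n + 2)
        · have hθi : th β γ i = γ := if_pos hil
          have hj1 : 1 ≤ (j : ℕ) := by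
            by_contra hc0
            have hj0 : (j : ℕ) = 0 := by omega
            apply hij1
            rw [hil, Fin.last_add_one]
            exact Fin.ext hj0
          have hiv : ((i : ℕ) : ℝ) = n + 2 := by
            rw [hil]
            simp
          have hj1' : (1 : ℝ) ≤ ((j : ℕ) : ℝ) := by exact_mod_cast hj1
          rw [hθi, hiv]
          nlinarith [mul_le_mul_of_nonneg_right hj1' hβ.le]
        · have hθi : th β γ i = β := if_neg hil
          have hiv : ((i : ℕ) : ℝ) ≤ n + 1 := by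
            have h3 : (i : ℕ) ≠ n + 2 := fun h4 => hil (Fin.ext h4)
            have h5 : (i : ℕ) ≤ n + 1 := by omega
            exact_mod_cast h5
          rw [hθi]
          have h6 : (0 : ℝ) ≤ ((j : ℕ) : ℝ) := Nat.cast_nonneg _
          nlinarith [mul_le_mul_of_nonneg_right hiv hβ.le, mul_nonneg h6 hβ.le]
    · -- `i < j`
      have hil : i ≠ Fin.last (n + 2) := by
        intro h
        rw [h] at hgt
        have : ((Fin.last (n + 2) : Fin (n + 3)) : ℕ) = n + 2 := rfl
        omega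
      have hθi : th β γ i = β := if_neg hil
      have hj2 : (i : ℕ) + 2 ≤ j := by
        have h3 : (j : ℕ) ≠ i + 1 := by
          intro h4
          apply hij1
          apply Fin.ext
          rw [h4, Fin.val_add_one, if_neg hil]
        omega
      have hj2' : ((i : ℕ) : ℝ) + 2 ≤ ((j : ℕ) : ℝ) := by exact_mod_cast hj2
      rw [hθi]
      apply cos_lt
      · linarith [hth0 j]
      · nlinarith [mul_le_mul_of_nonneg_right hj2' hβ.le]
      · have hi0 : (0 : ℝ) ≤ ((i : ℕ) : ℝ) := Nat.cast_nonneg _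
        by_cases hjl : j = Fin.last (n + 2)
        · have hθj : th β γ j = γ := if_pos hjl
          have hjv : ((j : ℕ) : ℝ) = n + 2 := by
            rw [hjl]
            simp
          rw [hθj, hjv]
          nlinarith [mul_nonneg hi0 hβ.le]
        · have hθj : th β γ j = β := if_neg hjl
          have hjv : ((j : ℕ) : ℝ) ≤ n + 1 := by
            have h3 : (j : ℕ) ≠ n + 2 := fun h4 => hjl (Fin.ext h4)
            have h5 : (j : ℕ) ≤ n + 1 := by omega
            exact_mod_cast h5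
          rw [hθj]
          nlinarith [mul_nonneg hi0 hβ.le, mul_le_mul_of_nonneg_right hjv hβ.le]
  · rw [lft_eq β γ hs hc, edge β γ hs hc, mul_zero, Complex.zero_re, sub_zero, mul_one, norm_mul,
      norm_mul, norm_En, Complex.norm_I, one_mul, one_mul, Complex.norm_real, Real.norm_eq_abs,
      abs_of_pos (add_pos (ht _) (ht _))]
  · rw [ang_vx β γ hs hth0 (fun j => (hth1 j).trans_lt h2)]
    unfold th
    rw [if_neg hj]
  · rw [ang_vx β γ hs hth0 (fun j => (hth1 j).trans_lt h2)]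
    unfold th
    rw [if_pos rfl]

open Filter Topology in
/-- `(n + 3) tan (π / (n + 3))` tends to `π` -/
theorem exists_lt (F : ℝ) (hF : π < F) : ∃ n : ℕ, ((n : ℝ) + 3) * Real.tan (π / (n + 3)) < F := by
  have h1 : HasDerivAt Real.tan 1 0 := by
    have := Real.hasDerivAt_tan (x := 0) (by simp)
    simpa using this
  have h2 := hasDerivAt_iff_tendsto_slope_zero.1 h1
  have h3 : Tendsto (fun n : ℕ => π / ((n : ℝ) + 3)) atTop (𝓝[≠] 0) := by
    rw [tendsto_nhdsWithin_iff]
    constructor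
    · have h4 : Tendsto (fun n : ℕ => (n : ℝ) + 3) atTop atTop :=
        tendsto_atTop_add_const_right _ _ tendsto_natCast_atTop_atTop
      exact tendsto_const_nhds.div_atTop h4
    · refine Eventually.of_forall fun n => ?_
      have : (0 : ℝ) < π / ((n : ℝ) + 3) := by positivity
      exact this.ne'
  have h5 := (h2.comp h3).const_mul π
  rw [mul_one] at h5
  obtain ⟨n, hn⟩ := (h5.eventually (gt_mem_nhds hF)).exists
  refine ⟨n, ?_⟩
  have h6 : (0 : ℝ) < (n : ℝ) + 3 := by positivity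
  have h7 : ((n : ℝ) + 3) * Real.tan (π / (n + 3)) =
      π * ((fun t : ℝ => t⁻¹ • (Real.tan (0 + t) - Real.tan 0)) ∘ fun n : ℕ => π / ((n : ℝ) + 3)) n := by
    simp only [Function.comp, zero_add, Real.tan_zero, sub_zero, smul_eq_mul, inv_div]
    field_simp
  rw [h7]
  exact hn

/-- the values of `(n + 2) tan (β / 2) + tan (γ / 2)` -/
theorem pa (F : ℝ) (hF : π < F) : ∃ (n : ℕ) (β γ : ℝ), 0 < γ ∧ γ ≤ β ∧ β < π ∧
    (n + 2) * β + γ = 2 * π ∧ (n + 2) * Real.tan (β / 2) + Real.tan (γ / 2) = F := by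
  classical
  have hpi := Real.pi_pos
  have hex : ∃ n : ℕ, ((n : ℝ) + 3) * Real.tan (π / (n + 3)) ≤ F := by
    obtain ⟨n, hn⟩ := exists_lt F hF
    exact ⟨n, hn.le⟩
  set n := Nat.find hex with hn
  have hn1 : ((n : ℝ) + 3) * Real.tan (π / (n + 3)) ≤ F := Nat.find_spec hex
  have key : ∃ b : ℝ, 2 * π / (n + 3) ≤ b ∧ b < π ∧ ((n : ℝ) + 2) * b ≤ 2 * π ∧
      F < (n + 2) * Real.tan (b / 2) + Real.tan ((2 * π - (n + 2) * b) / 2) := by
    rcases Nat.eq_zero_or_pos n with h0 | h0
    · rw [h0]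
      have h1 : ∀ᶠ x in nhdsWithin (π / 2) (Set.Iio (π / 2)), F / 2 < Real.tan x :=
        Real.tendsto_tan_pi_div_two.eventually_gt_atTop _
      have h2 : ∀ᶠ x in nhdsWithin (π / 2) (Set.Iio (π / 2)), π / 3 < x ∧ x < π / 2 := by
        filter_upwards [Ioo_mem_nhdsLT (show π / 3 < π / 2 by linarith)] with x hx using hx
      obtain ⟨x, hx1, hx2, hx3⟩ := (h1.and h2).exists
      refine ⟨2 * x, ?_, by linarith, by push_cast; linarith, ?_⟩
      · push_cast
        linarith
      · have h3 : 0 < Real.tan ((2 * π - ((0 : ℕ) + 2) * (2 * x)) / 2) := by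
          apply Real.tan_pos_of_pos_of_lt_pi_div_two
          · push_cast
            linarith
          · push_cast
            linarith
        have h4 : 2 * x / 2 = x := by ring
        rw [h4]
        push_cast at h3 ⊢
        linarith
    · obtain ⟨m, hm⟩ : ∃ m, n = m + 1 := ⟨n - 1, by omega⟩
      have h1 : ¬ ((m : ℝ) + 3) * Real.tan (π / (m + 3)) ≤ F := Nat.find_min hex (by omega)
      push Not at h1
      have hm' : (n : ℝ) = m + 1 := by
        rw [hm]
        push_cast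
        ring
      have hm0 : (0 : ℝ) ≤ m := Nat.cast_nonneg _
      refine ⟨2 * π / (n + 2), ?_, ?_, ?_, ?_⟩
      · rw [hm']
        gcongr
        linarith
      · rw [hm', div_lt_iff₀ (by linarith)]
        nlinarith
      · have : (0 : ℝ) < n + 2 := by linarith
        rw [mul_div_cancel₀ _ this.ne']
      · have h2 : (0 : ℝ) < (n : ℝ) + 2 := by linarith
        rw [mul_div_cancel₀ _ h2.ne', sub_self, zero_div, Real.tan_zero, add_zero]
        have h3 : 2 * π / ((n : ℝ) + 2) / 2 = π / (m + 3) := by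
          rw [hm']
          field_simp
          ring
        have h4 : (n : ℝ) + 2 = m + 3 := by
          rw [hm']
          ring
        rw [h3, h4]
        exact h1
  obtain ⟨b, hb1, hb2, hb3, hb4⟩ := key
  have hn3 : (0 : ℝ) < (n : ℝ) + 3 := by positivity
  have ha0 : 0 < 2 * π / ((n : ℝ) + 3) := by positivity
  have hcont : ContinuousOn (fun β : ℝ => ((n : ℝ) + 2) * Real.tan (β / 2) +
      Real.tan ((2 * π - (n + 2) * β) / 2)) (Set.Icc (2 * π / ((n : ℝ) + 3)) b) := by
    have c1 : ∀ β ∈ Set.Icc (2 * π / ((n : ℝ) + 3)) b, Real.cos (β / 2) ≠ 0 := fun β hβ =>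
      (Real.cos_pos_of_mem_Ioo ⟨by linarith [hβ.1], by linarith [hβ.2]⟩).ne'
    have c2 : ∀ β ∈ Set.Icc (2 * π / ((n : ℝ) + 3)) b,
        Real.cos ((2 * π - (n + 2) * β) / 2) ≠ 0 := by
      intro β hβ
      have h1 : ((n : ℝ) + 2) * β ≤ 2 * π :=
        (mul_le_mul_of_nonneg_left hβ.2 (by positivity)).trans hb3
      have h2 : 2 * π ≤ ((n : ℝ) + 3) * β := by
        have := hβ.1
        rw [div_le_iff₀ hn3] at this
        linarith
      exact (Real.cos_pos_of_mem_Ioo ⟨by linarith, by nlinarith [hβ.2]⟩).ne'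
    refine ContinuousOn.add (continuousOn_const.mul ?_) ?_
    · intro β hβ
      exact ((Real.continuousAt_tan.2 (c1 β hβ)).comp
        (f := fun β : ℝ => β / 2) (by fun_prop)).continuousWithinAt
    · intro β hβ
      exact ((Real.continuousAt_tan.2 (c2 β hβ)).comp
        (f := fun β : ℝ => (2 * π - (n + 2) * β) / 2) (by fun_prop)).continuousWithinAt
  have hleft : ((n : ℝ) + 2) * Real.tan (2 * π / ((n : ℝ) + 3) / 2) +
      Real.tan ((2 * π - (n + 2) * (2 * π / ((n : ℝ) + 3))) / 2) ≤ F := by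
    have h1 : 2 * π / ((n : ℝ) + 3) / 2 = π / (n + 3) := by
      field_simp
    have h2 : (2 * π - ((n : ℝ) + 2) * (2 * π / ((n : ℝ) + 3))) / 2 = π / (n + 3) := by
      field_simp
      ring
    rw [h1, h2]
    linarith
  obtain ⟨β, hβ, hβF⟩ := intermediate_value_Icc hb1 hcont ⟨hleft, hb4.le⟩
  have hβb : β < b := by
    refine lt_of_le_of_ne hβ.2 fun h => ?_
    rw [h] at hβF
    simp only at hβF
    linarith
  have hn2 : (0 : ℝ) < (n : ℝ) + 2 := by positivity
  refine ⟨n, β, 2 * π - (n + 2) * β, ?_, ?_, hβb.trans hb2, by ring, hβF⟩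
  · nlinarith [mul_lt_mul_of_pos_left hβb hn2]
  · have := hβ.1
    rw [div_le_iff₀ hn3] at this
    linarith

end Pool.Agent.X115.HI
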