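import Pool.Agent.Y289.HI.All7
import Pool.Agent.X115.HI.Ex

set_option autoImplicit false

/-!
# Circumscribed polygons whose angles are equal but one: the final forms
-/

namespace Pool.Agent.X115.HI

open Complex Set
open Pool.Agent.W780.PG (IsConvexPolygon region ang lft)
open Pool.Agent.W703.GP (Isospectral)
open Pool.Agent.Y289.HI (Circ rp)
open scoped Real ComplexConjugate

/-- determined by the spectrum among all convex polygons -/
def Det (P : Set ℂ) : Prop :=
  ∀ S : Set ℂ, S.Finite → (interior (convexHull ℝ S)).Nonempty →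
    Isospectral P (interior (convexHull ℝ S)) → ∃ φ : ℂ ≃ᵢ ℂ, φ '' P = interior (convexHull ℝ S)

theorem det {P : Set ℂ}
    (h : ∀ (m : ℕ) (q : Fin (m + 3) → ℂ), IsConvexPolygon q → Isospectral P (region q) →
      ∃ φ : ℂ ≃ᵢ ℂ, φ '' P = region q) : Det P :=
  Pool.Agent.Y289.HI.det_of Pool.Agent.Y459.HI.vs P h

theorem circ (n : ℕ) (p : Fin (n + 3) → ℂ) (hp : IsConvexPolygon p) (hc : Circ p)
    (k : Fin (n + 3)) (α : ℝ) (h1 : ∀ j, j ≠ k → ang p j = α) (h2 : α ≤ ang p k) :
    Det (region p) :=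
  det fun m q hq h => Pool.Agent.Y289.HI.circ n m p hp hc k α h1 h2 q hq h

theorem regular (n : ℕ) (c v : ℂ) (hc : c ≠ 0) :
    Det (region (fun j => c * rp n j + v)) :=
  det fun m q hq h => Pool.Agent.Y289.HI.regular n m c v hc q hq h

theorem quot (F : ℝ) (hF : π < F) :
    ∃ (n : ℕ) (p : Fin (n + 3) → ℂ), IsConvexPolygon p ∧
      (∑ j, ‖p (j + 1) - p j‖) ^ 2 = 4 * F * (MeasureTheory.volume (region p)).toReal ∧
      Det (region p) := by
  obtain ⟨n, p, h1, h2, h3⟩ := Pool.Agent.Y289.HI.quot_of ex pa F hF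
  exact ⟨n, p, h1, h2, det h3⟩

/-- every triangle is circumscribed about a circle -/
theorem circ_tri (p : Fin (0 + 3) → ℂ) (hp : IsConvexPolygon p) : Circ p := by
  set A : ℝ := lft (p 0) (p 1) (p 2) with hA
  have hA0 : 0 < A := hp.pos 0 2 (by decide) (by decide)
  set a := ‖p 2 - p 1‖ with ha
  set b := ‖p 0 - p 2‖ with hb
  set c := ‖p 1 - p 0‖ with hc
  have hc0 : 0 < c := by
    rw [hc, norm_pos_iff, sub_ne_zero]
    intro h
    rw [hA, h] at hA0
    simp [lft] at hA0
  have ha0 : 0 ≤ a := norm_nonneg _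
  have hb0 : 0 ≤ b := norm_nonneg _
  have hs : 0 < a + b + c := by positivity
  refine ⟨(a * p 0 + b * p 1 + c * p 2) / (a + b + c : ℝ), A / (a + b + c), by positivity, ?_⟩
  have hsC : ((a + b + c : ℝ) : ℂ) ≠ 0 := by exact_mod_cast hs.ne'
  have key : ∀ u v w : ℂ, ∀ x y z : ℝ, (x + y + z) ≠ 0 →
      lft u v ((x * u + y * v + z * w) / (x + y + z : ℝ)) = z / (x + y + z) * lft u v w := by
    intro u v w x y z hxyz
    have hx : ((x + y + z : ℝ) : ℂ) ≠ 0 := by exact_mod_cast hxyz
    have e : (x * u + y * v + z * w) / ((x + y + z : ℝ) : ℂ) - u =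
        ((y / (x + y + z) : ℝ) : ℂ) * (v - u) + ((z / (x + y + z) : ℝ) : ℂ) * (w - u) := by
      push_cast at hx ⊢
      field_simp
      ring
    unfold lft
    rw [e]
    have e2 : conj (v - u) * (((y / (x + y + z) : ℝ) : ℂ) * (v - u) +
        ((z / (x + y + z) : ℝ) : ℂ) * (w - u)) =
        ((y / (x + y + z) : ℝ) : ℂ) * ((Complex.normSq (v - u) : ℝ) : ℂ) +
        ((z / (x + y + z) : ℝ) : ℂ) * (conj (v - u) * (w - u)) := by
      rw [Complex.normSq_eq_conj_mul_self]
      ring
    rw [e2, Complex.add_im, ← Complex.ofReal_mul, Complex.ofReal_im, zero_add,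
      Complex.im_ofReal_mul]
  have cyc : lft (p 1) (p 2) (p 0) = A ∧ lft (p 2) (p 0) (p 1) = A := by
    constructor
    · rw [hA]
      simp only [lft, Complex.mul_im, Complex.conj_re, Complex.conj_im, Complex.sub_re,
        Complex.sub_im]
      ring
    · rw [hA]
      simp only [lft, Complex.mul_im, Complex.conj_re, Complex.conj_im, Complex.sub_re,
        Complex.sub_im]
      ring
  intro i
  fin_cases i
  · change lft (p 0) (p 1) _ = _ * ‖p 1 - p 0‖
    rw [key (p 0) (p 1) (p 2) a b c hs.ne']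
    rw [← hA, ← hc]
    ring
  · change lft (p 1) (p 2) _ = _ * ‖p 2 - p 1‖
    have e : (a * p 0 + b * p 1 + c * p 2) / ((a + b + c : ℝ) : ℂ) =
        (b * p 1 + c * p 2 + a * p 0) / ((b + c + a : ℝ) : ℂ) := by
      congr 1
      · ring
      · push_cast
        ring
    rw [e, key (p 1) (p 2) (p 0) b c a (by linarith [hs.ne', hs]), cyc.1, ← ha]
    have : b + c + a = a + b + c := by ring
    rw [this]
    ring
  · change lft (p 2) (p 0) _ = _ * ‖p 0 - p 2‖
    have e : (a * p 0 + b * p 1 + c * p 2) / ((a + b + c : ℝ) : ℂ) =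
        (c * p 2 + a * p 0 + b * p 1) / ((c + a + b : ℝ) : ℂ) := by
      congr 1
      · ring
      · push_cast
        ring
    rw [e, key (p 2) (p 0) (p 1) c a b (by linarith [hs.ne', hs]), cyc.2, ← hb]
    have : c + a + b = a + b + c := by ring
    rw [this]
    ring

/-- isosceles triangles whose angle at the apex is at least sixty degrees -/
theorem isosceles (p : Fin (0 + 3) → ℂ) (hp : IsConvexPolygon p)
    (h : ‖p 1 - p 0‖ = ‖p 2 - p 0‖) (h60 : π / 3 ≤ ang p 0) : Det (region p) := by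
  have e1 : ang p 1 = ang p 2 := by
    unfold ang
    change EuclideanGeometry.angle (p 0) (p 1) (p 2) = EuclideanGeometry.angle (p 1) (p 2) (p 0)
    rw [EuclideanGeometry.angle_comm (p 1) (p 2) (p 0)]
    have h2 : dist (p 0) (p 1) = dist (p 0) (p 2) := by
      rw [dist_comm (p 0) (p 1), dist_comm (p 0) (p 2), dist_eq_norm, dist_eq_norm]
      exact h
    exact EuclideanGeometry.angle_eq_angle_of_dist_eq h2
  have hne : p 1 ≠ p 0 := by
    intro h3
    have hA0 : 0 < lft (p 0) (p 1) (p 2) := hp.pos 0 2 (by decide) (by decide)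
    rw [h3] at hA0
    simp [lft] at hA0
  have hne2 : p 2 ≠ p 0 := by
    intro h3
    have hA0 : 0 < lft (p 0) (p 1) (p 2) := hp.pos 0 2 (by decide) (by decide)
    rw [h3] at hA0
    simp [lft] at hA0
  have e2 : ang p 0 + ang p 1 + ang p 2 = π := by
    unfold ang
    change EuclideanGeometry.angle (p 2) (p 0) (p 1) + EuclideanGeometry.angle (p 0) (p 1) (p 2) +
      EuclideanGeometry.angle (p 1) (p 2) (p 0) = π
    have h4 := EuclideanGeometry.angle_add_angle_add_angle_eq_pi (p 2) hne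
    linarith
  refine circ 0 p hp (circ_tri p hp) 0 (ang p 1) (fun j hj => ?_) (by linarith)
  fin_cases j
  · exact absurd rfl hj
  · rfl
  · exact e1.symm

end Pool.Agent.X115.HI
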